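import Mathlib

/-!
# Hemisystems of `H(3,q^2)`, `q ≡ 5 (mod 12)`: shared definitions

`k ⊂ E` is a quadratic extension of finite fields, `|k| = q`.  The field `F_{q^6}` is
`E ⊕ E g ⊕ E g⁻¹` with `g^3 = ρ`, `g^{q^3} = g⁻¹`; its elements are triples `(x0,x1,x2) : E × E × E`
and the elements of `F_{q^3}` are pairs `(a,U) : k × E`, standing for `a + U g + Ū g⁻¹`.
-/

set_option autoImplicit false

open Classical

namespace Pool.Agent.Helper93.Hemi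

section general

variable (k E : Type) [Field k] [Fintype k] [Field E] [Fintype E] [Algebra k E]

/-- `x ↦ x^q` on `E`. -/
noncomputable def cj : E →ₐ[k] E := FiniteField.frobeniusAlgHom k E

/-- The trace `E → k`. -/
noncomputable def tr : E →ₗ[k] k := Algebra.trace k E

/-- The norm `E → k`. -/
noncomputable def nm : E →* k := Algebra.norm k

/-- The context: `q ≡ 5 (mod 12)`. -/
structure Ctx where
  finE : Module.finrank k E = 2
  hq3 : Fintype.card k % 3 = 2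
  hq4 : Fintype.card k % 4 = 1
  i : k
  hi : i ^ 2 = -1
  ω : E
  hω : ω ^ 2 + ω + 1 = 0
  ρ : E
  hρ : ρ * cj k E ρ = 1
  hρ3 : ∀ z : E, z ^ 3 ≠ ρ

end general

/-- The Kloosterman sum `∑_{u ≠ 0} ψ(u + a/u)`. -/
noncomputable def Kl {k : Type} [Field k] [Fintype k] (ψ : AddChar k ℂ) (a : k) : ℂ :=
  ∑ u : kˣ, ψ ((u : k) + a * ((u⁻¹ : kˣ) : k))

/-- The integral indicator. -/
noncomputable def ind (p : Prop) : ℂ := if p then 1 else 0

section forms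

variable {k E : Type} [Field k] [Fintype k] [Field E] [Fintype E] [Algebra k E]

/-- The determinant form on `Herm_3(E)`:
`h = ((d0,d1,d2),(e0,e1,e2))` stands for the Hermitian matrix
`[[d0,e2,ē1],[ē2,d1,e0],[e1,ē0,d2]]`. -/
noncomputable def dt (h : (k × k × k) × (E × E × E)) : k :=
  h.1.1 * h.1.2.1 * h.1.2.2 + tr k E (h.2.1 * h.2.2.1 * h.2.2.2) - h.1.1 * nm k E h.2.1
    - h.1.2.1 * nm k E h.2.2.1 - h.1.2.2 * nm k E h.2.2.2

/-- The trace pairing on `Herm_3(E)`. -/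
noncomputable def pr (h H : (k × k × k) × (E × E × E)) : k :=
  h.1.1 * H.1.1 + h.1.2.1 * H.1.2.1 + h.1.2.2 * H.1.2.2 + tr k E (h.2.1 * cj k E H.2.1)
    + tr k E (h.2.2.1 * cj k E H.2.2.1) + tr k E (h.2.2.2 * cj k E H.2.2.2)

/-- `X X̄ = aa X + (YY X) g + conj(YY X) g⁻¹`. -/
noncomputable def aa (X : E × E × E) : k := nm k E X.1 + nm k E X.2.1 + nm k E X.2.2

/-- The pairing `Tr_{E/k} (∑ x_i ȳ_i)`. -/
noncomputable def ip (X Y : E × E × E) : k :=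
  tr k E (X.1 * cj k E Y.1) + tr k E (X.2.1 * cj k E Y.2.1) + tr k E (X.2.2 * cj k E Y.2.2)

namespace Ctx

variable (c : Ctx k E)

/-- The norm form of `F_{q^3}` in the coordinates `(a,U)`. -/
noncomputable def n (z : k × E) : k := z.1 ^ 3 - 3 * z.1 * nm k E z.2 + tr k E (c.ρ * z.2 ^ 3)

/-- `X X̄ = aa X + (YY X) g + conj(YY X) g⁻¹`. -/
noncomputable def YY (X : E × E × E) : E :=
  X.1 * cj k E X.2.2 + X.2.1 * cj k E X.1 + cj k E c.ρ * (X.2.2 * cj k E X.2.1)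

/-- The norm from `F_{q^6}` to `E`. -/
noncomputable def nu (X : E × E × E) : E :=
  X.1 ^ 3 + c.ρ * X.2.1 ^ 3 + cj k E c.ρ * X.2.2 ^ 3 - 3 * (X.1 * X.2.1 * X.2.2)

/-- The cubic form `N_J(ζ,X) = N(ζ) - Tr(ζ X X̄) + ν(X) + ν̄(X)` on `J = F_{q^3} ⊕ F_{q^6}`. -/
noncomputable def NJ (z : k × E) (X : E × E × E) : k :=
  c.n z - 3 * (z.1 * aa X + tr k E (z.2 * cj k E (c.YY X))) + tr k E (c.nu X)

/-- The identification `J → Herm_3(E)`. -/
noncomputable def toH (z : k × E) (X : E × E × E) : (k × k × k) × (E × E × E) :=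
  ((z.1 + tr k E X.1, z.1 + tr k E (c.ω * X.1), z.1 + tr k E (c.ω ^ 2 * X.1)),
   (cj k E c.ρ * (c.ω ^ 2 * cj k E z.2 + c.ω ^ 2 * cj k E X.2.1 + c.ω ^ 2 * X.2.2),
    c.ω ^ 2 * cj k E z.2 + c.ω * cj k E X.2.1 + X.2.2,
    c.ω ^ 2 * cj k E z.2 + cj k E X.2.1 + c.ω * X.2.2))

/-- The number of `V : E` with `Tr((ρ + κ) V^3 - 3 Ȳ V) + Tr ν(X) = 0`. -/
noncomputable def CC (κ : E) (X : E × E × E) : ℕ :=
  (Finset.univ.filter (fun V : E =>
    tr k E ((c.ρ + κ) * V ^ 3 - 3 * (cj k E (c.YY X) * V)) + tr k E (c.nu X) = 0)).card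

/-- `#{U : Tr(γ U^3 - 3 β U) + t = 0}`. -/
noncomputable def PP (_c : Ctx k E) (γ β : E) (t : k) : ℕ :=
  (Finset.univ.filter (fun U : E => tr k E (γ * U ^ 3 - 3 * (β * U)) + t = 0)).card

/-- `μ = ν - i ν̄`. -/
noncomputable def mu (X : E × E × E) : E := c.nu X - algebraMap k E c.i * cj k E (c.nu X)

/-- The function: `± 3 q (q - 1)` on nonzero isotropic vectors. -/
noncomputable def S (Y μ : E) : ℤ :=
  ∑ α : Eˣ, quadraticChar k (nm k E α) *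
    ((c.PP c.ρ (algebraMap k E c.i * (α : E) ^ 2 * cj k E Y) (- tr k E ((α : E) ^ 3 * μ)) : ℤ)
      - (c.PP 1 (algebraMap k E c.i * (α : E) ^ 2 * cj k E Y * cj k E c.ρ)
          (- tr k E ((α : E) ^ 3 * μ * cj k E c.ρ)) : ℤ))

end Ctx

end forms

/-! ### The goals (exact statements) -/

/-- F3a: convolution of Kloosterman sums. -/
def GoalF3a : Prop := ∀ (k : Type) [Field k] [Fintype k] (ψ : AddChar k ℂ), ψ ≠ 1 →
  ∀ A B : k, ∑ c : kˣ, Kl ψ ((c : k) * A) * Kl ψ (-((c : k) * B)) =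
    (Fintype.card k : ℂ) ^ 2 * ind (A + B = 0) - Fintype.card k - 1
      + Fintype.card k * (ind (A = 0) + ind (B = 0))
      - (Fintype.card k : ℂ) ^ 2 * ind (A = 0 ∧ B = 0)

/-- F3b. -/
def GoalF3b : Prop := ∀ (k : Type) [Field k] [Fintype k] (ψ : AddChar k ℂ), ψ ≠ 1 →
  (2 : k) ≠ 0 → ∀ t B : k, ∑ m : kˣ, ψ ((m : k) * t) * Kl ψ ((m : k) ^ 2 * B) =
    Fintype.card k * (quadraticChar k (t ^ 2 - 4 * B) : ℤ) + 1 - Fintype.card k * ind (B = 0)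

/-- F1: the cubic exponential sum over `F_{q^3}`. -/
def GoalF1 : Prop := ∀ (k E : Type) [Field k] [Fintype k] [Field E] [Fintype E] [Algebra k E]
  (c : Ctx k E) (ψ : AddChar k ℂ), ψ ≠ 1 → ∀ (m : kˣ) (η : k × E),
  ∑ z : k × E, ψ ((m : k) * c.n z + 3 * (z.1 * η.1 + tr k E (z.2 * cj k E η.2))) =
    Fintype.card k * Kl ψ (- (((m⁻¹ : kˣ) : k) * c.n η))
      - (Fintype.card k : ℂ) ^ 2 * ind (η = 0)

/-- F2w: the cubic exponential sum over `Herm_3(E)`, weak form. -/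
def GoalF2w : Prop := ∀ (k E : Type) [Field k] [Fintype k] [Field E] [Fintype E] [Algebra k E],
  Module.finrank k E = 2 → ∀ (ψ : AddChar k ℂ), ψ ≠ 1 →
  ∀ H : (k × k × k) × (E × E × E), ∃ R : ℂ, ∀ m : kˣ,
  ∑ h : (k × k × k) × (E × E × E), ψ ((m : k) * dt h + pr h H) =
    - (Fintype.card k : ℂ) ^ 4 * Kl ψ (- (((m⁻¹ : kˣ) : k) * dt H)) + R

/-- J: the identification `J = Herm_3(E)`. -/
def GoalJ : Prop := ∀ (k E : Type) [Field k] [Fintype k] [Field E] [Fintype E] [Algebra k E]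
  (c : Ctx k E),
  (∀ z X, dt (c.toH z X) = c.NJ z X) ∧
  (∀ z X z' X', pr (c.toH z X) (c.toH z' X') =
    3 * (z.1 * z'.1 + tr k E (z.2 * cj k E z'.2) + ip X X')) ∧
  Function.Bijective (fun p : (k × E) × (E × E × E) => c.toH p.1 p.2)

/-- LS: the line sum theorem. -/
def GoalLS : Prop := ∀ (k E : Type) [Field k] [Fintype k] [Field E] [Fintype E] [Algebra k E]
  (c : Ctx k E) (z κ : E), z * cj k E z = 1 → (κ = c.ρ * z ^ 3 ∨ κ = cj k E c.ρ * z ^ 3) →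
  ∀ L : Finset (E × E × E), 0 ∈ L → (∀ x ∈ L, ∀ y ∈ L, x + y ∈ L) →
    (∀ (a : k), ∀ x ∈ L, a • x ∈ L) → L.card = Fintype.card k ^ 2 → (∀ x ∈ L, aa (k := k) x = 0) →
    ∑ X ∈ L, (c.CC κ X : ℤ) =
      (Fintype.card k : ℤ) ^ 3 + (Fintype.card k : ℤ) ^ 2 - Fintype.card k

/-- K0: point count, nonsplit case. -/
def GoalK0 : Prop := ∀ (k E : Type) [Field k] [Fintype k] [Field E] [Fintype E] [Algebra k E]
  (c : Ctx k E) (β : E) (t : k), β ≠ 0 →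
  (c.PP c.ρ β t : ℤ) = Fintype.card k + 1 +
    ∑ h : k, quadraticChar k (t ^ 2 - 4 * (h ^ 3 - 3 * h * nm k E β + tr k E (c.ρ * cj k E β ^ 3)))

/-- K1: point count, split case. -/
def GoalK1 : Prop := ∀ (k E : Type) [Field k] [Fintype k] [Field E] [Fintype E] [Algebra k E]
  (c : Ctx k E) (β : E) (t : k), β ≠ 0 →
  (c.PP 1 β t : ℤ) = Fintype.card k - 2 +
    ∑ h : k, quadraticChar k (t ^ 2 - 4 * (h ^ 3 - 3 * h * nm k E β + tr k E (β ^ 3)))
    + (if t = 0 ∧ cj k E (β ^ 3) = β ^ 3 then (Fintype.card k : ℤ) else 0)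

end Pool.Agent.Helper93.Hemi
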