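import Mathlib
import Pool.Agent.Helper93.Hemi.Defs

/-!
# Basic API
-/

set_option autoImplicit false
set_option linter.unusedSectionVars false

open Classical

namespace Pool.Agent.Helper93.Hemi

section tower

variable {k E : Type} [Field k] [Fintype k] [Field E] [Fintype E] [Algebra k E]

theorem cj_apply (x : E) : cj k E x = x ^ Fintype.card k := rfl

theorem cj_algebraMap (c : k) : cj k E (algebraMap k E c) = algebraMap k E c :=
  (cj k E).commutes c

theorem algebraMap_inj {a b : k} (h : algebraMap k E a = algebraMap k E b) : a = b :=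
  (algebraMap k E).injective h

theorem cj_injective : Function.Injective (cj k E) := (cj k E).toRingHom.injective

theorem card_E (h : Module.finrank k E = 2) : Fintype.card E = Fintype.card k ^ 2 := by
  rw [Module.card_eq_pow_finrank (K := k) (V := E), h]

theorem cj_cj (h : Module.finrank k E = 2) (x : E) : cj k E (cj k E x) = x := by
  rw [cj_apply, cj_apply, ← pow_mul, ← sq, ← card_E h, FiniteField.pow_card]

theorem cj_eq_zero {x : E} : cj k E x = 0 ↔ x = 0 :=
  map_eq_zero_iff (cj k E) cj_injective

theorem tr_formula (h : Module.finrank k E = 2) (z : E) :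
    algebraMap k E (tr k E z) = z + cj k E z := by
  rw [tr, FiniteField.algebraMap_trace_eq_sum_pow, h, Finset.sum_range_succ,
    Finset.sum_range_one, Nat.card_eq_fintype_card, cj_apply]
  simp

theorem nm_formula (h : Module.finrank k E = 2) (z : E) :
    algebraMap k E (nm k E z) = z * cj k E z := by
  rw [nm, FiniteField.algebraMap_norm_eq_prod_pow, h, Finset.prod_range_succ,
    Finset.prod_range_one, Nat.card_eq_fintype_card, cj_apply]
  simp

theorem nm_eq_zero (h : Module.finrank k E = 2) {z : E} : nm k E z = 0 ↔ z = 0 := by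
  constructor
  · intro hz
    have h1 := nm_formula h z
    rw [hz, map_zero] at h1
    rcases mul_eq_zero.1 h1.symm with h2 | h2
    · exact h2
    · exact cj_eq_zero.1 h2
  · rintro rfl
    apply algebraMap_inj (E := E)
    rw [nm_formula h, zero_mul, map_zero]

theorem nm_cj (h : Module.finrank k E = 2) (z : E) : nm k E (cj k E z) = nm k E z := by
  apply algebraMap_inj (E := E)
  rw [nm_formula h, nm_formula h, cj_cj h, mul_comm]

theorem tr_cj (h : Module.finrank k E = 2) (z : E) : tr k E (cj k E z) = tr k E z := by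
  apply algebraMap_inj (E := E)
  rw [tr_formula h, tr_formula h, cj_cj h, add_comm]

theorem tr_algebraMap_mul (a : k) (z : E) : tr k E (algebraMap k E a * z) = a * tr k E z := by
  rw [← Algebra.smul_def, map_smul, smul_eq_mul]

theorem nm_algebraMap_mul (h : Module.finrank k E = 2) (a : k) (z : E) :
    nm k E (algebraMap k E a * z) = a ^ 2 * nm k E z := by
  apply algebraMap_inj (E := E)
  rw [nm_formula h, map_mul, map_mul, map_pow, nm_formula h, cj_algebraMap]
  ring

/-- Elements of `E` fixed by conjugation lie in `k`. -/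
theorem exists_k {x : E} (hx : cj k E x = x) : ∃ u : k, algebraMap k E u = x := by
  have hq1 : 1 < Fintype.card k := Fintype.one_lt_card
  have hne := FiniteField.X_pow_card_sub_X_ne_zero E hq1
  have hdeg := FiniteField.X_pow_card_sub_X_natDegree_eq E hq1
  set p := (Polynomial.X ^ Fintype.card k - Polynomial.X : Polynomial E) with hp
  have hsub : Finset.univ.image (algebraMap k E) ⊆ p.roots.toFinset := by
    intro y hy
    obtain ⟨u, _, rfl⟩ := Finset.mem_image.1 hy
    rw [Multiset.mem_toFinset, Polynomial.mem_roots hne]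
    simp only [hp, Polynomial.IsRoot, Polynomial.eval_sub, Polynomial.eval_pow,
      Polynomial.eval_X]
    rw [← map_pow, FiniteField.pow_card, sub_self]
  have hcard : p.roots.toFinset.card ≤ (Finset.univ.image (algebraMap k E)).card := by
    rw [Finset.card_image_of_injective _ (algebraMap k E).injective, Finset.card_univ, ← hdeg]
    exact (Multiset.toFinset_card_le _).trans (Polynomial.card_roots' _)
  have heq := Finset.eq_of_subset_of_card_le hsub hcard
  have hxr : x ∈ p.roots.toFinset := by
    rw [Multiset.mem_toFinset, Polynomial.mem_roots hne]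
    simp only [hp, Polynomial.IsRoot, Polynomial.eval_sub, Polynomial.eval_pow,
      Polynomial.eval_X]
    rw [← cj_apply, hx, sub_self]
  rw [← heq] at hxr
  obtain ⟨u, _, hu⟩ := Finset.mem_image.1 hxr
  exact ⟨u, hu⟩

/-- The sum of a nontrivial additive character. -/
theorem sum_psi {ψ : AddChar k ℂ} (hψ : ψ ≠ 1) (b : k) :
    ∑ x : k, ψ (x * b) = if b = 0 then (Fintype.card k : ℂ) else 0 := by
  rw [AddChar.sum_mulShift b (AddChar.IsPrimitive.of_ne_one hψ)]
  split_ifs <;> simp

/-- Sums over the field from sums over the units. -/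
theorem sum_units {M : Type} [AddCommMonoid M] (f : k → M) :
    ∑ x : k, f x = f 0 + ∑ u : kˣ, f u := by
  classical
  rw [← Finset.add_sum_erase Finset.univ f (Finset.mem_univ 0)]
  congr 1
  symm
  apply Finset.sum_bij (fun (u : kˣ) _ => (u : k))
  · intro u _
    exact Finset.mem_erase.2 ⟨u.ne_zero, Finset.mem_univ _⟩
  · intro u _ v _ h
    exact Units.ext h
  · intro x hx
    exact ⟨Units.mk0 x (Finset.mem_erase.1 hx).1, Finset.mem_univ _, rfl⟩
  · intro u _
    rfl

theorem sum_psi_units {ψ : AddChar k ℂ} (hψ : ψ ≠ 1) (b : k) :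
    ∑ x : kˣ, ψ ((x : k) * b) = (if b = 0 then (Fintype.card k : ℂ) else 0) - 1 := by
  have h := sum_psi hψ b
  rw [sum_units, zero_mul, AddChar.map_zero_eq_one] at h
  rw [← h]
  ring

/-- The character `x ↦ ψ(tr(x b))` of `E`. -/
theorem sum_psi_tr (h : Module.finrank k E = 2) {ψ : AddChar k ℂ} (hψ : ψ ≠ 1) (b : E) :
    ∑ x : E, ψ (tr k E (x * b)) = if b = 0 then (Fintype.card k : ℂ) ^ 2 else 0 := by
  have hne : (ψ.compAddMonoidHom (tr k E).toAddMonoidHom) ≠ 1 := by
    intro h1
    apply hψ
    ext x
    obtain ⟨y, hy⟩ := Algebra.trace_surjective k E x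
    have h2 := DFunLike.congr_fun h1 y
    change ψ (Algebra.trace k E y) = 1 at h2
    rw [hy] at h2
    rw [h2]
    rfl
  have h3 := AddChar.sum_mulShift b (AddChar.IsPrimitive.of_ne_one hne)
  have h4 : ∀ x : E, (ψ.compAddMonoidHom (tr k E).toAddMonoidHom) (x * b) = ψ (tr k E (x * b)) :=
    fun x => rfl
  simp only [h4] at h3
  rw [h3, card_E h]
  split_ifs <;> simp

namespace Ctx

variable (c : Ctx k E)

include c in
theorem three_ne : (3 : k) ≠ 0 := by
  intro h3
  -- the characteristic would be 3, but `q % 3 = 2`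
  obtain ⟨p, hp⟩ := CharP.exists k
  obtain ⟨n, hpp, hn⟩ := FiniteField.card k p
  have : p ∣ 3 := (CharP.cast_eq_zero_iff k p 3).1 (by exact_mod_cast h3)
  have hp3 : p = 3 := by
    rcases (Nat.dvd_prime Nat.prime_three).1 this with h | h
    · exact absurd h hpp.one_lt.ne'
    · exact h
  have h := c.hq3
  rw [hn, hp3] at h
  have : (3 : ℕ) ^ (n : ℕ) % 3 = 0 := by
    apply Nat.mod_eq_zero_of_dvd
    exact dvd_pow_self 3 n.2.ne'
  omega

include c in
theorem two_ne : (2 : k) ≠ 0 := by
  intro h2
  obtain ⟨p, hp⟩ := CharP.exists k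
  obtain ⟨n, hpp, hn⟩ := FiniteField.card k p
  have : p ∣ 2 := (CharP.cast_eq_zero_iff k p 2).1 (by exact_mod_cast h2)
  have hp3 : p = 2 := by
    rcases (Nat.dvd_prime Nat.prime_two).1 this with h | h
    · exact absurd h hpp.one_lt.ne'
    · exact h
  have h := c.hq4
  rw [hn, hp3] at h
  have : (2 : ℕ) ^ (n : ℕ) % 2 = 0 := by
    apply Nat.mod_eq_zero_of_dvd
    exact dvd_pow_self 2 n.2.ne'
  omega

include c in
theorem three_ne_E : (3 : E) ≠ 0 := by
  intro h
  apply c.three_ne
  apply algebraMap_inj (E := E)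
  rw [map_ofNat, h, map_zero]

include c in
theorem two_ne_E : (2 : E) ≠ 0 := by
  intro h
  apply c.two_ne
  apply algebraMap_inj (E := E)
  rw [map_ofNat, h, map_zero]

theorem ρ_ne : c.ρ ≠ 0 := by
  intro h
  have := c.hρ
  rw [h, zero_mul] at this
  exact zero_ne_one this

theorem ω3 : c.ω ^ 3 = 1 := by
  linear_combination (c.ω - 1) * c.hω

/-- `ω̄ = ω^2`. -/
theorem cj_ω : cj k E c.ω = c.ω ^ 2 := by
  have h := c.hq3
  have h3 := c.ω3
  rw [cj_apply]
  obtain ⟨m, hm⟩ : ∃ m, Fintype.card k = 3 * m + 2 := ⟨Fintype.card k / 3, by omega⟩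
  rw [hm, pow_add, pow_mul, h3, one_pow, one_mul]

include c in
/-- The cubing map is bijective on `k`. -/
theorem cube_bij : Function.Bijective (fun x : k => x ^ 3) := by
  have hinj : Function.Injective (fun x : k => x ^ 3) := by
    intro x y hxy
    simp only at hxy
    by_cases hy : y = 0
    · rw [hy] at hxy ⊢
      rw [zero_pow (by norm_num)] at hxy
      exact (pow_eq_zero_iff (by norm_num)).1 hxy
    · have h1 : (x / y) ^ 3 = 1 := by rw [div_pow, hxy, div_self (pow_ne_zero 3 hy)]
      have h2 : (x / y) ^ (Fintype.card k - 1) = 1 := by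
        apply FiniteField.pow_card_sub_one_eq_one
        intro h
        rw [h] at h1
        norm_num at h1
      have hq := c.hq3
      have h3 : x / y = 1 := by
        have hc : Nat.Coprime 3 (Fintype.card k - 1) := by
          rw [Nat.Prime.coprime_iff_not_dvd Nat.prime_three]
          omega
        have := orderOf_dvd_of_pow_eq_one h1
        have h5 := orderOf_dvd_of_pow_eq_one h2
        have h6 : orderOf (x / y) ∣ 1 := by
          rw [← Nat.Coprime.gcd_eq_one hc]
          exact Nat.dvd_gcd this h5
        exact orderOf_eq_one_iff.1 (Nat.dvd_one.1 h6)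
      exact (div_eq_one_iff_eq hy).1 h3
  exact ⟨hinj, Finite.surjective_of_injective hinj⟩

/-- `x x̄ = 0` with `ρ`. -/
theorem cjρ : cj k E c.ρ = c.ρ⁻¹ := by
  rw [eq_comm, inv_eq_iff_eq_inv]
  exact eq_inv_of_mul_eq_one_left c.hρ

include c in
/-- Elements of `k` are squares in `E`. -/
theorem exists_sqrt (a : k) : ∃ s : E, s ^ 2 = algebraMap k E a := by
  by_cases ha : a = 0
  · exact ⟨0, by rw [ha]; simp⟩
  have h2 : ringChar E ≠ 2 := by
    intro h
    apply c.two_ne_E
    have := ringChar.spec E 2
    rw [h] at this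
    exact_mod_cast this.2 dvd_rfl
  have ha' : algebraMap k E a ≠ 0 := by
    intro h
    exact ha (algebraMap_inj (E := E) (by rw [h, map_zero]))
  have hsq := (FiniteField.isSquare_iff h2 ha').2 (by
    rw [card_E c.finE, ← map_pow]
    have hq := c.hq4
    have h1 : Fintype.card k ^ 2 / 2 = (Fintype.card k - 1) * ((Fintype.card k + 1) / 2) := by
      obtain ⟨m, hm⟩ : ∃ m, Fintype.card k = 4 * m + 1 := ⟨Fintype.card k / 4, by omega⟩
      rw [hm]
      have e1 : (4 * m + 1) ^ 2 / 2 = 4 * m * (2 * m + 1) := by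
        have : (4 * m + 1) ^ 2 = 2 * (4 * m * (2 * m + 1)) + 1 := by ring
        rw [this]
        omega
      rw [e1]
      have e2 : (4 * m + 1 + 1) / 2 = 2 * m + 1 := by omega
      rw [e2]
      simp
    rw [h1, pow_mul, FiniteField.pow_card_sub_one_eq_one a ha, one_pow, map_one])
  obtain ⟨s, hs⟩ := hsq
  exact ⟨s, by rw [hs]; ring⟩

/-- The norm form is anisotropic. -/
theorem n_eq_zero {z : k × E} : c.n z = 0 ↔ z = 0 := by
  constructor
  · intro h
    obtain ⟨a, U⟩ := z
    have h1 := congrArg (algebraMap k E) h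
    simp only [n, map_add, map_sub, map_mul, map_pow, map_ofNat, map_zero, nm_formula c.finE,
      tr_formula c.finE] at h1
    by_cases hU : U = 0
    · subst hU
      simp only [map_zero, mul_zero, sub_zero, add_zero, ne_eq, OfNat.ofNat_ne_zero,
        not_false_eq_true, zero_pow] at h1
      have ha := (pow_eq_zero_iff (n := 3) (by norm_num)).1 h1
      rw [Prod.mk_eq_zero]
      exact ⟨algebraMap_inj (E := E) (by rw [ha, map_zero]), rfl⟩
    · exfalso
      have hUc : cj k E U ≠ 0 := fun h => hU (cj_eq_zero.1 h)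
      have hρc : cj k E c.ρ ≠ 0 := fun h => c.ρ_ne (cj_eq_zero.1 h)
      -- a root of v^2 + a v + N
      obtain ⟨s, hs⟩ := c.exists_sqrt (a ^ 2 - 4 * nm k E U)
      rw [map_sub, map_mul, map_pow, map_ofNat, nm_formula c.finE] at hs
      set A := algebraMap k E a
      set V := cj k E U
      set r' := cj k E c.ρ
      have h2 := c.two_ne_E
      obtain ⟨v, hv⟩ : ∃ v : E, v ^ 2 + A * v + U * V = 0 := by
        refine ⟨(s - A) / 2, ?_⟩
        field_simp
        linear_combination hs
      have hv0 : v ≠ 0 := by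
        rintro rfl
        apply mul_ne_zero hU hUc
        linear_combination hv
      have hρ := c.hρ
      have key : (v ^ 3 - c.ρ * U ^ 3) * (v ^ 3 - r' * V ^ 3) = 0 := by
        have hA : A = -(v + U * V / v) := by
          field_simp
          linear_combination hv
        rw [hA] at h1
        field_simp at h1
        linear_combination (-1) * h1 + (U ^ 3 * V ^ 3) * hρ
      rcases mul_eq_zero.1 key with h3 | h3
      · apply c.hρ3 (v / U)
        rw [div_pow, div_eq_iff (pow_ne_zero 3 hU)]
        linear_combination h3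
      · apply c.hρ3 (V / v)
        rw [div_pow, div_eq_iff (pow_ne_zero 3 hv0)]
        linear_combination (-c.ρ) * h3 - V ^ 3 * hρ
  · rintro rfl
    simp [n]

end Ctx

end tower

end Pool.Agent.Helper93.Hemi
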