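import Mathlib
import Pool.Agent.Helper93.Hemi.Base
import Pool.Agent.Helper52.Hemi.Gen

/-!
# The field `K = F_{q^6}` and the remaining goals
-/

set_option autoImplicit false
set_option linter.unusedSectionVars false

open Classical

namespace Pool.Agent.Helper93.Hemi

open Pool.Agent.Helper52.Hemi (fr tau Tow hh)

/-- The context with the field `K`, `|K| = q^6`, and the element `g`. -/
structure CtxK (k E K : Type) [Field k] [Fintype k] [Field E] [Fintype E] [Field K] [Fintype K]
    [Algebra k E] [Algebra E K] [Algebra k K] [IsScalarTower k E K] extends Ctx k E where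
  tw : Tow k E K
  g : K
  hg3 : g ^ 3 = algebraMap E K ρ
  hg : g * tau k K g = 1
  hgω : fr k K (fr k K g) = algebraMap E K ω * g

section

variable {k E K : Type} [Field k] [Fintype k] [Field E] [Fintype E] [Field K] [Fintype K]
    [Algebra k E] [Algebra E K] [Algebra k K] [IsScalarTower k E K]

/-- The element `x0 + x1 g + x2 g⁻¹` of `K`. -/
noncomputable def CtxK.toK (c : CtxK k E K) (X : E × E × E) : K :=
  algebraMap E K X.1 + algebraMap E K X.2.1 * c.g + algebraMap E K X.2.2 * c.g⁻¹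

end

/-- EVAL: the function `S` takes the values `± 3q(q-1)`. (The field `K` may be used to find the
root of the quartic.) -/
def GoalEval : Prop := ∀ (k E K : Type) [Field k] [Fintype k] [Field E] [Fintype E] [Field K]
  [Fintype K] [Algebra k E] [Algebra E K] [Algebra k K] [IsScalarTower k E K]
  (c : CtxK k E K) (Y μ : E), Y ≠ 0 →
  4 * tr k E (c.ρ * Y ^ 3) = c.i * tr k E (μ ^ 2) →
  (c.S Y μ = 3 * Fintype.card k * (Fintype.card k - 1) ∨
    c.S Y μ = -(3 * Fintype.card k * (Fintype.card k - 1)))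

/-- LINK: line sums of the two families of point counts. -/
def GoalLink : Prop := ∀ (k E K : Type) [Field k] [Fintype k] [Field E] [Fintype E] [Field K]
  [Fintype K] [Algebra k E] [Algebra E K] [Algebra k K] [IsScalarTower k E K]
  (c : CtxK k E K) (α : E), α ≠ 0 →
  ∀ L : Finset (E × E × E), 0 ∈ L → (∀ x ∈ L, ∀ y ∈ L, x + y ∈ L) →
    (∀ (a : k), ∀ x ∈ L, a • x ∈ L) → L.card = Fintype.card k ^ 2 → (∀ x ∈ L, aa (k := k) x = 0) →
    ∑ X ∈ L, (c.PP c.ρ (algebraMap k E c.i * α ^ 2 * cj k E (c.YY X))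
        (- tr k E (α ^ 3 * c.mu X)) : ℤ) =
      (Fintype.card k : ℤ) ^ 3 + (Fintype.card k : ℤ) ^ 2 - Fintype.card k ∧
    ∑ X ∈ L, (c.PP 1 (algebraMap k E c.i * α ^ 2 * cj k E (c.YY X) * cj k E c.ρ)
        (- tr k E (α ^ 3 * c.mu X * cj k E c.ρ)) : ℤ) =
      (Fintype.card k : ℤ) ^ 3 + (Fintype.card k : ℤ) ^ 2 - Fintype.card k

end Pool.Agent.Helper93.Hemi
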