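import Mathlib
import Pool.Agent.Helper93.Hemi.Base

/-!
# EVAL, the case `κ = 0`
-/

set_option autoImplicit false
set_option linter.unusedSectionVars false

open Classical

namespace Pool.Agent.Helper93.Hemi

section

variable {k E : Type} [Field k] [Fintype k] [Field E] [Fintype E] [Algebra k E]

namespace Ctx

variable (c : Ctx k E)

/-- `√-3 = ω - ω²`. -/
noncomputable def s3 : E := c.ω - c.ω ^ 2

theorem s3_sq : c.s3 ^ 2 = -3 := by
  rw [s3]
  linear_combination (c.ω ^ 2 - 3 * c.ω + 3) * c.hω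

theorem cj_s3 : cj k E c.s3 = - c.s3 := by
  rw [s3, map_sub, map_pow, c.cj_ω]
  linear_combination (c.ω - c.ω ^ 2) * c.hω

theorem s3_ne : c.s3 ≠ 0 := by
  intro h
  have h1 := c.s3_sq
  rw [h] at h1
  exact c.three_ne_E (by linear_combination h1)

/-- `x̄ = -x` iff `x ∈ √-3 k`. -/
theorem exists_s3 {x : E} (hx : cj k E x = -x) : ∃ u : k, x = c.s3 * algebraMap k E u := by
  obtain ⟨u, hu⟩ := exists_k (k := k) (x := x / c.s3) (by
    rw [map_div₀, hx, c.cj_s3, neg_div_neg_eq])
  exact ⟨u, by rw [hu, mul_div_cancel₀ _ c.s3_ne]⟩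

theorem ω_ne_algebraMap (u : k) : c.ω ≠ algebraMap k E u := by
  intro h
  have h1 := c.cj_ω
  rw [h, cj_algebraMap, ← h] at h1
  have h2 := c.s3_ne
  rw [s3, ← h1, sub_self] at h2
  exact h2 rfl

include c in
theorem quad_three : quadraticChar k 3 = -1 := by
  have h3 := c.three_ne
  rcases quadraticChar_dichotomy h3 with h | h
  · exfalso
    obtain ⟨r, hr⟩ := (quadraticChar_one_iff_isSquare h3).1 h
    -- `-3 = (i r)^2`, so `s3 ∈ k`
    have h1 := c.s3_sq
    have h2 : (c.s3 - algebraMap k E (c.i * r)) * (c.s3 + algebraMap k E (c.i * r)) = 0 := by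
      have h4 : algebraMap k E (c.i * r) ^ 2 = -3 := by
        rw [← map_pow, mul_pow, c.hi, sq r, ← hr, neg_one_mul, map_neg, map_ofNat]
      linear_combination h1 - h4
    have h5 := c.cj_s3
    have h6 : ∀ u : k, c.s3 ≠ algebraMap k E u := by
      intro u hu
      rw [hu, cj_algebraMap, ← hu] at h5
      have : 2 * c.s3 = 0 := by linear_combination h5
      exact c.s3_ne ((mul_eq_zero.1 this).resolve_left c.two_ne_E)
    rcases mul_eq_zero.1 h2 with h7 | h7
    · exact h6 _ (sub_eq_zero.1 h7)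
    · apply h6 (-(c.i * r))
      rw [map_neg]
      linear_combination h7
  · exact h

theorem ω_ne : c.ω ≠ 0 := by
  intro h
  have := c.ω3
  rw [h] at this
  norm_num at this

/-- The parametrization of the set of nonzero `x` with `tr (x^3) = 0`. -/
noncomputable def par (p : Fin 3 × kˣ) : Eˣ := Units.mk0 (c.ω ^ (p.1 : ℕ) * (c.s3 *
        algebraMap k E (p.2 : k))) (mul_ne_zero (pow_ne_zero _ c.ω_ne)
          (mul_ne_zero c.s3_ne ((map_ne_zero _).2 p.2.ne_zero)))

theorem par_val (p : Fin 3 × kˣ) : (c.par p : E) = c.ω ^ (p.1 : ℕ) * (c.s3 *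
        algebraMap k E (p.2 : k)) := rfl

theorem par_injective : Function.Injective c.par := by
  rintro ⟨j, u⟩ ⟨l, v⟩ h
  have h1 : c.ω ^ (j : ℕ) * (c.s3 * algebraMap k E (u : k)) =
      c.ω ^ (l : ℕ) * (c.s3 * algebraMap k E (v : k)) := congrArg Units.val h
  have hu : algebraMap k E (u : k) ≠ 0 := (map_ne_zero _).2 u.ne_zero
  have hv : algebraMap k E (v : k) ≠ 0 := (map_ne_zero _).2 v.ne_zero
  have h2 : c.ω ^ (j : ℕ) * algebraMap k E (u : k) = c.ω ^ (l : ℕ) * algebraMap k E (v : k) := by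
    apply mul_left_cancel₀ c.s3_ne
    linear_combination h1
  have h3 := c.ω3
  -- the ratio
  have key : ∀ (w : E) (_ : w * algebraMap k E (u : k) = algebraMap k E (v : k)),
      ∃ r : k, w = algebraMap k E r := fun w hw => ⟨v / u, by
        rw [map_div₀, eq_div_iff hu, hw]⟩
  have hj : j = l := by
    by_contra hjl
    have h4 : (∃ r : k, c.ω = algebraMap k E r) := by
      fin_cases j <;> fin_cases l <;> simp at hjl h2
      · obtain ⟨r, hr⟩ := key (c.ω ^ 2) (by
          rw [h2]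
          linear_combination (algebraMap k E (v : k)) * h3)
        exact ⟨r ^ 2, by rw [map_pow, ← hr]; linear_combination (-c.ω) * h3⟩
      · obtain ⟨r, hr⟩ := key c.ω (by
          rw [h2]
          linear_combination (algebraMap k E (v : k)) * h3)
        exact ⟨r, hr⟩
      · obtain ⟨r, hr⟩ := key c.ω h2
        exact ⟨r, hr⟩
      · obtain ⟨r, hr⟩ := key (c.ω ^ 2) (by
          linear_combination c.ω * h2 + (algebraMap k E (v : k)) * h3)
        exact ⟨r ^ 2, by rw [map_pow, ← hr]; linear_combination (-c.ω) * h3⟩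
      · obtain ⟨r, hr⟩ := key (c.ω ^ 2) h2
        exact ⟨r ^ 2, by rw [map_pow, ← hr]; linear_combination (-c.ω) * h3⟩
      · obtain ⟨r, hr⟩ := key c.ω (by
          apply mul_left_cancel₀ c.ω_ne
          linear_combination h2)
        exact ⟨r, hr⟩
    obtain ⟨r, hr⟩ := h4
    exact c.ω_ne_algebraMap r hr
  subst hj
  have h5 : algebraMap k E (u : k) = algebraMap k E (v : k) :=
    mul_left_cancel₀ (pow_ne_zero _ c.ω_ne) h2
  rw [Units.ext (algebraMap_inj h5)]

theorem mem_par {x : Eˣ} : tr k E ((x : E) ^ 3) = 0 ↔ ∃ p, c.par p = x := by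
  have h3 := c.ω3
  constructor
  · intro h
    have h1 := congrArg (algebraMap k E) h
    rw [tr_formula c.finE, map_pow, map_zero] at h1
    have hω := c.hω
    have h2 : (cj k E x + x) * ((cj k E x + c.ω * x) * (cj k E x + c.ω ^ 2 * x)) = 0 := by
      linear_combination h1 + (cj k E x ^ 2 * x + cj k E x * (x : E) ^ 2 * c.ω) * hω +
        ((x : E) ^ 3) * h3
    have key : ∀ y : E, y ≠ 0 → cj k E y = -y → ∃ u : kˣ, y = c.s3 * algebraMap k E (u : k) := by
      intro y hy0 hy
      obtain ⟨u, hu⟩ := c.exists_s3 hy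
      have hu0 : u ≠ 0 := by
        rintro rfl
        rw [map_zero, mul_zero] at hu
        exact hy0 hu
      exact ⟨Units.mk0 u hu0, hu⟩
    rcases mul_eq_zero.1 h2 with h4 | h4
    · obtain ⟨u, hu⟩ := key x x.ne_zero (by linear_combination h4)
      exact ⟨(0, u), Units.ext (by rw [par_val]; simp [hu])⟩
    rcases mul_eq_zero.1 h4 with h5 | h5
    · -- x̄ = -ω x : `ω^2 x` is skew
      obtain ⟨u, hu⟩ := key (c.ω ^ 2 * x) (mul_ne_zero (pow_ne_zero 2 c.ω_ne) x.ne_zero) (by
        rw [map_mul, map_pow, c.cj_ω]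
        linear_combination (c.ω) * h5 + (c.ω * cj k E x) * h3)
      refine ⟨(1, u), Units.ext ?_⟩
      rw [par_val]
      simp only [Fin.val_one, pow_one]
      linear_combination (-c.ω) * hu + (x : E) * h3
    · obtain ⟨u, hu⟩ := key (c.ω * x) (mul_ne_zero c.ω_ne x.ne_zero) (by
        rw [map_mul, c.cj_ω]
        linear_combination (c.ω ^ 2) * h5 - (c.ω * x) * h3)
      refine ⟨(2, u), Units.ext ?_⟩
      rw [par_val]
      simp only [Fin.val_two]
      linear_combination (-c.ω ^ 2) * hu + (x : E) * h3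
  · rintro ⟨⟨j, u⟩, rfl⟩
    apply algebraMap_inj (E := E)
    rw [tr_formula c.finE, par_val, map_zero]
    simp only [map_mul, map_pow, c.cj_ω, c.cj_s3, cj_algebraMap]
    have e1 : (c.ω ^ (j : ℕ)) ^ 3 = 1 := by rw [← pow_mul, mul_comm, pow_mul, h3, one_pow]
    have e2 : ((c.ω ^ 2) ^ (j : ℕ)) ^ 3 = 1 := by
      rw [← pow_mul, ← pow_mul, show 2 * ((j : ℕ) * 3) = 3 * (2 * (j : ℕ)) by ring, pow_mul, h3,
        one_pow]
    linear_combination (c.s3 * algebraMap k E (u : k)) ^ 3 * e1 -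
      (c.s3 * algebraMap k E (u : k)) ^ 3 * e2

theorem quad_nm_par (p : Fin 3 × kˣ) : quadraticChar k (nm k E (c.par p : E)) = -1 := by
  have h1 : nm k E (c.par p : E) = 3 * (p.2 : k) ^ 2 := by
    apply algebraMap_inj (E := E)
    rw [nm_formula c.finE, par_val]
    simp only [map_mul, map_pow, map_ofNat, c.cj_ω, c.cj_s3, cj_algebraMap]
    have e1 : c.ω ^ (p.1 : ℕ) * (c.ω ^ 2) ^ (p.1 : ℕ) = 1 := by
      rw [← mul_pow, ← pow_succ', c.ω3, one_pow]
    linear_combination (- c.s3 ^ 2 * algebraMap k E (p.2 : k) ^ 2) * e1 -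
      (algebraMap k E (p.2 : k) ^ 2) * c.s3_sq
  rw [h1, map_mul, c.quad_three, quadraticChar_sq_one' p.2.ne_zero, mul_one]

include c in
/-- The key sum. -/
theorem sum_tr_cube (b : k) : ∑ x : Eˣ, (quadraticChar k (b * nm k E (x : E)) : ℤ) *
      (if tr k E ((x : E) ^ 3) = 0 then 1 else 0) =
    - quadraticChar k b * (3 * (Fintype.card k - 1)) := by
  have h1 : ∑ x : Eˣ, (quadraticChar k (b * nm k E (x : E)) : ℤ) *
      (if tr k E ((x : E) ^ 3) = 0 then 1 else 0) =
      ∑ x ∈ Finset.univ.filter (fun x : Eˣ => tr k E ((x : E) ^ 3) = 0),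
        (quadraticChar k (b * nm k E (x : E)) : ℤ) := by
    rw [Finset.sum_filter]
    apply Finset.sum_congr rfl
    intro x _
    split_ifs <;> simp
  have h2 : Finset.univ.filter (fun x : Eˣ => tr k E ((x : E) ^ 3) = 0) =
      Finset.univ.image c.par := by
    ext x
    simp only [Finset.mem_filter, Finset.mem_univ, true_and, Finset.mem_image]
    exact c.mem_par
  rw [h1, h2, Finset.sum_image (fun x _ y _ h => c.par_injective h)]
  have h3 : ∀ p : Fin 3 × kˣ, (quadraticChar k (b * nm k E (c.par p : E)) : ℤ) =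
      - quadraticChar k b := by
    intro p
    rw [map_mul, c.quad_nm_par, mul_neg_one]
  rw [Finset.sum_congr rfl (fun p _ => h3 p), Finset.sum_const, Finset.card_univ,
    Fintype.card_prod, Fintype.card_fin, Fintype.card_units, nsmul_eq_mul]
  have : 1 ≤ Fintype.card k := Fintype.card_pos
  push_cast [Nat.cast_sub this]
  ring

include c in
theorem sum_quad_nm : ∑ α : Eˣ, (quadraticChar k (nm k E (α : E)) : ℤ) = 0 := by
  have h2 : ringChar k ≠ 2 := by
    intro h
    apply c.two_ne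
    have := ringChar.spec k 2
    rw [h] at this
    exact_mod_cast this.2 dvd_rfl
  obtain ⟨a, ha⟩ := quadraticChar_exists_neg_one h2
  obtain ⟨b, hb⟩ := FiniteField.norm_surjective (K := k) (K' := E) a
  have hb' : nm k E b = a := hb
  have hb0 : b ≠ 0 := by
    rintro rfl
    rw [(nm_eq_zero c.finE).2 rfl] at hb'
    rw [← hb', quadraticChar_zero] at ha
    norm_num at ha
  have h3 : ∑ α : Eˣ, (quadraticChar k (nm k E (α : E)) : ℤ) =
      ∑ α : Eˣ, (quadraticChar k (nm k E ((Units.mk0 b hb0 * α : Eˣ) : E)) : ℤ) :=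
    (Fintype.sum_equiv (Equiv.mulLeft (Units.mk0 b hb0)) _ _ (fun _ => rfl)).symm
  simp only [Units.val_mul, Units.val_mk0, map_mul, hb', ha] at h3
  rw [← Finset.mul_sum] at h3
  linarith

/-- EVAL in the case `κ = 0`. -/
theorem evalZero (hK0 : GoalK0) (hK1 : GoalK1) (Y μ : E) (hY : Y ≠ 0)
    (hκ : μ ^ 2 + 4 * (algebraMap k E c.i * (cj k E c.ρ * cj k E Y ^ 3)) = 0) :
    c.S Y μ = 3 * Fintype.card k * (Fintype.card k - 1) ∨
      c.S Y μ = -(3 * Fintype.card k * (Fintype.card k - 1)) := by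
  have hρ := c.hρ
  have hi : (algebraMap k E c.i) ^ 2 = -1 := by rw [← map_pow, c.hi, map_neg, map_one]
  set I := algebraMap k E c.i with hI
  have hIc : cj k E I = I := cj_algebraMap _
  have hI0 : I ≠ 0 := by
    intro h
    rw [h] at hi
    have : (1 : E) = 0 := by linear_combination hi
    exact one_ne_zero this
  have hYc : cj k E Y ≠ 0 := fun h => hY (cj_eq_zero.1 h)
  have hρc : cj k E c.ρ ≠ 0 := fun h => c.ρ_ne (cj_eq_zero.1 h)
  have h2E := c.two_ne_E
  have h4E : (4 : E) ≠ 0 := by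
    have : (4 : E) = 2 * 2 := by norm_num
    rw [this]
    exact mul_ne_zero h2E h2E
  have hμ : μ ≠ 0 := by
    rintro rfl
    have : 4 * (I * (cj k E c.ρ * cj k E Y ^ 3)) = 0 := by linear_combination hκ
    exact mul_ne_zero h4E (mul_ne_zero hI0 (mul_ne_zero hρc (pow_ne_zero 3 hYc))) this
  have hμc : cj k E μ ≠ 0 := fun h => hμ (cj_eq_zero.1 h)
  -- conjugate relation
  have hκc : cj k E μ ^ 2 + 4 * (I * (c.ρ * Y ^ 3)) = 0 := by
    have := congrArg (cj k E) hκ
    simpa only [map_add, map_mul, map_pow, map_ofNat, map_zero, hIc, cj_cj c.finE] using this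
  have hterm : ∀ α : Eˣ,
      ((c.PP c.ρ (I * (α : E) ^ 2 * cj k E Y) (- tr k E ((α : E) ^ 3 * μ)) : ℤ)
      - (c.PP 1 (I * (α : E) ^ 2 * cj k E Y * cj k E c.ρ)
          (- tr k E ((α : E) ^ 3 * μ * cj k E c.ρ)) : ℤ)) =
      3 - Fintype.card k * (if tr k E (((α : E) * (μ / cj k E Y)) ^ 3) = 0 then 1 else 0) := by
    intro α
    have hα : (α : E) ≠ 0 := α.ne_zero
    rw [hK0 k E c _ _ (mul_ne_zero (mul_ne_zero hI0 (pow_ne_zero 2 hα)) hYc),
      hK1 k E c _ _ (mul_ne_zero (mul_ne_zero (mul_ne_zero hI0 (pow_ne_zero 2 hα)) hYc) hρc)]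
    have hD : ∀ h : k, (- tr k E ((α : E) ^ 3 * μ)) ^ 2 - 4 * (h ^ 3 - 3 * h *
        nm k E (I * (α : E) ^ 2 * cj k E Y) +
          tr k E (c.ρ * cj k E (I * (α : E) ^ 2 * cj k E Y) ^ 3)) =
        (- tr k E ((α : E) ^ 3 * μ * cj k E c.ρ)) ^ 2 - 4 * (h ^ 3 - 3 * h *
          nm k E (I * (α : E) ^ 2 * cj k E Y * cj k E c.ρ) +
          tr k E ((I * (α : E) ^ 2 * cj k E Y * cj k E c.ρ) ^ 3)) := by
      intro h
      apply algebraMap_inj (E := E)
      simp only [map_add, map_sub, map_mul, map_pow, map_neg, map_ofNat, tr_formula c.finE,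
        nm_formula c.finE, cj_cj c.finE, hIc]
      linear_combination -(2 * (α : E) ^ 3 * cj k E (α : E) ^ 3 * μ * cj k E μ +
          12 * algebraMap k E h * I ^ 2 * (α : E) ^ 2 * cj k E (α : E) ^ 2 * Y * cj k E Y) * hρ +
        (α : E) ^ 6 * (1 - cj k E c.ρ ^ 2) * hκ + cj k E (α : E) ^ 6 * (1 - c.ρ ^ 2) * hκc -
        4 * I * ((c.ρ * cj k E (α : E) ^ 6 * Y ^ 3 + cj k E c.ρ * (α : E) ^ 6 * cj k E Y ^ 3) -
          ((α : E) ^ 6 * cj k E Y ^ 3 * cj k E c.ρ ^ 3 + cj k E (α : E) ^ 6 * Y ^ 3 * c.ρ ^ 3)) * hi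
    simp only [hD]
    have hif : (- tr k E ((α : E) ^ 3 * μ * cj k E c.ρ) = 0 ∧
        cj k E ((I * (α : E) ^ 2 * cj k E Y * cj k E c.ρ) ^ 3) =
          (I * (α : E) ^ 2 * cj k E Y * cj k E c.ρ) ^ 3) ↔
        tr k E (((α : E) * (μ / cj k E Y)) ^ 3) = 0 := by
      set w := (α : E) ^ 3 * μ * cj k E c.ρ with hw
      have hz3 : ((α : E) * (μ / cj k E Y)) ^ 3 = algebraMap k E (-4 * c.i) * w := by
        rw [map_mul, ← hI, map_neg, map_ofNat, hw]
        field_simp
        linear_combination hκ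
      have htr : tr k E (((α : E) * (μ / cj k E Y)) ^ 3) = -4 * c.i * tr k E w := by
        rw [hz3, tr_algebraMap_mul]
      have hi0 : c.i ≠ 0 := by
        intro h
        apply hI0
        rw [hI, h, map_zero]
      have h4 : (-4 : k) ≠ 0 := by
        intro h
        apply h4E
        have := congrArg (algebraMap k E) h
        rw [map_neg, map_ofNat, map_zero] at this
        linear_combination -this
      constructor
      · rintro ⟨h, _⟩
        rw [htr, neg_eq_zero.1 h, mul_zero]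
      · intro h
        rw [htr] at h
        have hw0 := (mul_eq_zero.1 h).resolve_left (mul_ne_zero h4 hi0)
        refine ⟨by rw [hw0, neg_zero], ?_⟩
        have hw1 := congrArg (algebraMap k E) hw0
        rw [tr_formula c.finE, map_zero] at hw1
        have h4w : 4 * (I * (α : E) ^ 2 * cj k E Y * cj k E c.ρ) ^ 3 = w ^ 2 := by
          rw [hw]
          linear_combination - (α : E) ^ 6 * cj k E c.ρ ^ 2 * hκ +
            4 * I * (α : E) ^ 6 * cj k E Y ^ 3 * cj k E c.ρ ^ 3 * hi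
        have h4w' := congrArg (cj k E) h4w
        rw [map_mul, map_pow _ w, map_ofNat] at h4w'
        apply mul_left_cancel₀ h4E
        rw [h4w', h4w]
        linear_combination (cj k E w - w) * hw1
    rw [if_congr hif rfl rfl]
    split_ifs <;> ring
  have hS : c.S Y μ = ∑ α : Eˣ, (quadraticChar k (nm k E (α : E)) : ℤ) * 3 -
      ∑ α : Eˣ, (quadraticChar k (nm k E (α : E)) : ℤ) * (Fintype.card k *
      (if tr k E (((α : E) * (μ / cj k E Y)) ^ 3) = 0 then 1 else 0)) := by
    rw [← Finset.sum_sub_distrib]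
    unfold Ctx.S
    apply Finset.sum_congr rfl
    intro α _
    rw [← mul_sub, ← hterm α]
  rw [hS, ← Finset.sum_mul, c.sum_quad_nm, zero_mul, zero_sub]
  have hz0 : μ / cj k E Y ≠ 0 := div_ne_zero hμ hYc
  have hsum : ∑ α : Eˣ, (quadraticChar k (nm k E (α : E)) : ℤ) * (Fintype.card k *
      (if tr k E (((α : E) * (μ / cj k E Y)) ^ 3) = 0 then 1 else 0)) =
      Fintype.card k * ∑ x : Eˣ, (quadraticChar k (nm k E (μ / cj k E Y)⁻¹ * nm k E (x : E)) : ℤ) *
      (if tr k E ((x : E) ^ 3) = 0 then 1 else 0) := by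
    rw [Finset.mul_sum]
    apply Fintype.sum_equiv (Equiv.mulRight (Units.mk0 _ hz0))
    intro α
    simp only [Equiv.coe_mulRight, Units.val_mul, Units.val_mk0]
    have : nm k E (μ / cj k E Y)⁻¹ * nm k E ((α : E) * (μ / cj k E Y)) = nm k E (α : E) := by
      rw [← map_mul]
      congr 1
      field_simp
    rw [this]
    ring
  rw [hsum, c.sum_tr_cube]
  have hb : nm k E (μ / cj k E Y)⁻¹ ≠ 0 := by
    intro h
    exact inv_ne_zero hz0 ((nm_eq_zero c.finE).1 h)
  rcases quadraticChar_dichotomy hb with h | h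
  · left
    rw [h]
    ring
  · right
    rw [h]
    ring

end Ctx

end

end Pool.Agent.Helper93.Hemi
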