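import Mathlib
import Pool.Agent.Helper93.Hemi.Goals2

/-!
# The link between `A_c(X)` and `C_κ(θX)`
-/

set_option autoImplicit false
set_option linter.unusedSectionVars false

open Classical

namespace Pool.Agent.Helper93.Hemi

variable {k E : Type} [Field k] [Fintype k] [Field E] [Fintype E] [Algebra k E]

namespace Ctx

variable (c : Ctx k E)

theorem cube_class (x : E) (hx : x ≠ 0) :
    ∃ t : E, t ≠ 0 ∧ (x = t ^ 3 ∨ x = c.ρ * t ^ 3 ∨ x = cj k E c.ρ * t ^ 3) := by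
  obtain ⟨γ, hγ⟩ := IsCyclic.exists_generator (α := Eˣ)
  obtain ⟨a, ha⟩ := Subgroup.mem_zpowers_iff.1 (hγ (Units.mk0 c.ρ c.ρ_ne))
  obtain ⟨b, hb⟩ := Subgroup.mem_zpowers_iff.1 (hγ (Units.mk0 x hx))
  have ha' : ((γ ^ a : Eˣ) : E) = c.ρ := by rw [ha]; rfl
  have hb' : ((γ ^ b : Eˣ) : E) = x := by rw [hb]; rfl
  have ha3 : ¬ (a % 3 = 0) := by
    intro h0
    apply c.hρ3 ((γ ^ (a / 3) : Eˣ) : E)
    rw [← ha', ← Units.val_pow_eq_pow_val, ← zpow_natCast, ← zpow_mul]
    congr 2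
    push_cast
    omega
  have hcase : (∃ m : ℤ, b = 3 * m) ∨ (∃ m : ℤ, b = a + 3 * m) ∨ (∃ m : ℤ, b = -a + 3 * m) := by
    have h1 : a % 3 = 1 ∨ a % 3 = 2 := by omega
    have h2 : b % 3 = 0 ∨ b % 3 = 1 ∨ b % 3 = 2 := by omega
    rcases (show b % 3 = 0 ∨ (b - a) % 3 = 0 ∨ (b + a) % 3 = 0 by
      rcases h1 with h1 | h1 <;> rcases h2 with h2 | h2 | h2 <;> omega) with h | h | h
    · exact Or.inl ⟨b / 3, by omega⟩
    · exact Or.inr (Or.inl ⟨(b - a) / 3, by omega⟩)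
    · exact Or.inr (Or.inr ⟨(b + a) / 3, by omega⟩)
  rcases hcase with ⟨m, hm⟩ | ⟨m, hm⟩ | ⟨m, hm⟩
  · refine ⟨((γ ^ m : Eˣ) : E), Units.ne_zero _, Or.inl ?_⟩
    rw [← hb', hm, ← Units.val_pow_eq_pow_val, ← zpow_natCast, ← zpow_mul]
    congr 2
    push_cast
    ring
  · refine ⟨((γ ^ m : Eˣ) : E), Units.ne_zero _, Or.inr (Or.inl ?_)⟩
    rw [← hb', hm, ← Units.val_pow_eq_pow_val, ← zpow_natCast, ← zpow_mul, zpow_add,
      Units.val_mul, ha']
    congr 3
    push_cast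
    ring
  · refine ⟨((γ ^ m : Eˣ) : E), Units.ne_zero _, Or.inr (Or.inr ?_)⟩
    rw [← hb', hm, ← Units.val_pow_eq_pow_val, ← zpow_natCast, ← zpow_mul, zpow_add, zpow_neg,
      Units.val_mul, c.cjρ, ← ha', Units.val_inv_eq_inv_val]
    congr 3
    push_cast
    ring

/-- `ī = i`, `i^2 = -1` in `E`. -/
theorem hiE : (algebraMap k E c.i) ^ 2 = -1 := by
  rw [← map_pow, c.hi, map_neg, map_one]

include c in
theorem sq_add_ne {γ : E} (hγ : γ ≠ 0) : γ ^ 2 + cj k E γ ^ 2 ≠ 0 := by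
  intro h
  have hi := c.hiE
  set I := algebraMap k E c.i with hI
  have hIc : cj k E I = I := cj_algebraMap _
  have h1 : (cj k E γ - I * γ) * (cj k E γ + I * γ) = 0 := by
    linear_combination h - γ ^ 2 * hi
  have h2 := c.two_ne_E
  rcases mul_eq_zero.1 h1 with h3 | h3
  · have h4 := congrArg (cj k E) h3
    rw [map_sub, map_mul, hIc, cj_cj c.finE, map_zero] at h4
    apply hγ
    have : 2 * γ = 0 := by linear_combination h4 + I * h3 + γ * hi
    exact (mul_eq_zero.1 this).resolve_left h2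
  · have h4 := congrArg (cj k E) h3
    rw [map_add, map_mul, hIc, cj_cj c.finE, map_zero] at h4
    apply hγ
    have : 2 * γ = 0 := by linear_combination h4 - I * h3 + γ * hi
    exact (mul_eq_zero.1 this).resolve_left h2

/-- The multiplier data: for `a ā = u^3` there is a `k`-linear bijection `Θ` of `E^3` with
`ν(ΘX) = a ν(X)`, `Y(ΘX) = u Y(X)`, `aa(ΘX) = u aa(X)`. -/
theorem exists_theta (a : E) (u : k) (ha : a ≠ 0) (hau : nm k E a = u ^ 3) :
    ∃ Θ : (E × E × E) → (E × E × E), Function.Injective Θ ∧ Θ 0 = 0 ∧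
      (∀ X Y, Θ (X + Y) = Θ X + Θ Y) ∧ (∀ (r : k) X, Θ (r • X) = r • Θ X) ∧
      (∀ X, c.nu (Θ X) = a * c.nu X) ∧ (∀ X, c.YY (Θ X) = algebraMap k E u * c.YY X) ∧
      (∀ X, aa (k := k) (Θ X) = u * aa X) := by
  have hρ := c.hρ
  obtain ⟨t, ht, h | h | h⟩ := c.cube_class a ha
  · -- `a = t^3`
    have hu : nm k E t = u := by
      apply c.cube_bij.1
      simp only
      rw [← hau, h, map_pow]
    have hu' : algebraMap k E u = t * cj k E t := by rw [← hu, nm_formula c.finE]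
    refine ⟨fun X => (t * X.1, t * X.2.1, t * X.2.2), ?_, ?_, ?_, ?_, ?_, ?_, ?_⟩
    · rintro ⟨a, b, d⟩ ⟨a', b', d'⟩ hh
      simp only [Prod.mk.injEq] at hh ⊢
      exact ⟨mul_left_cancel₀ ht hh.1, mul_left_cancel₀ ht hh.2.1, mul_left_cancel₀ ht hh.2.2⟩
    · simp
    · intro X Y
      simp [mul_add]
    · intro r X
      simp [Prod.smul_def]
    · intro X
      simp only [nu, h]
      ring
    · intro X
      simp only [YY, map_mul, hu']
      ring
    · intro X
      simp only [aa, map_mul, hu]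
      ring
  · -- `a = ρ t^3`
    have hr : nm k E c.ρ = 1 := by
      apply algebraMap_inj (E := E)
      rw [nm_formula c.finE, hρ, map_one]
    have hu : nm k E t = u := by
      apply c.cube_bij.1
      simp only
      rw [← hau, h, map_mul, map_pow, hr, one_mul]
    have hu' : algebraMap k E u = t * cj k E t := by rw [← hu, nm_formula c.finE]
    refine ⟨fun X => (t * X.2.2, t * X.1, c.ρ * t * X.2.1), ?_, ?_, ?_, ?_, ?_, ?_, ?_⟩
    · rintro ⟨a, b, d⟩ ⟨a', b', d'⟩ hh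
      simp only [Prod.mk.injEq] at hh ⊢
      exact ⟨mul_left_cancel₀ ht hh.2.1, mul_left_cancel₀ (mul_ne_zero c.ρ_ne ht) hh.2.2,
        mul_left_cancel₀ ht hh.1⟩
    · simp
    · intro X Y
      simp [mul_add]
    · intro r X
      simp [Prod.smul_def]
    · intro X
      simp only [nu, h]
      linear_combination (t ^ 3 * c.ρ ^ 2 * X.2.1 ^ 3 - t ^ 3 * X.2.2 ^ 3) * hρ
    · intro X
      simp only [YY, map_mul, hu']
      linear_combination (t * cj k E t * (cj k E X.1 * X.2.1 - X.2.2 * cj k E X.2.1 * cj k E c.ρ * 0)) * hρ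
    · intro X
      simp only [aa, map_mul, hu, hr]
      ring
  · -- `a = ρ̄ t^3`
    have hr : nm k E c.ρ = 1 := by
      apply algebraMap_inj (E := E)
      rw [nm_formula c.finE, hρ, map_one]
    have hrc : nm k E (cj k E c.ρ) = 1 := by rw [nm_cj c.finE, hr]
    have hu : nm k E t = u := by
      apply c.cube_bij.1
      simp only
      rw [← hau, h, map_mul, map_pow, hrc, one_mul]
    have hu' : algebraMap k E u = t * cj k E t := by rw [← hu, nm_formula c.finE]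
    refine ⟨fun X => (t * X.2.1, cj k E c.ρ * t * X.2.2, t * X.1), ?_, ?_, ?_, ?_, ?_, ?_, ?_⟩
    · rintro ⟨a, b, d⟩ ⟨a', b', d'⟩ hh
      simp only [Prod.mk.injEq] at hh ⊢
      exact ⟨mul_left_cancel₀ ht hh.2.2, mul_left_cancel₀ ht hh.1,
        mul_left_cancel₀ (mul_ne_zero (fun h => c.ρ_ne (cj_eq_zero.1 h)) ht) hh.2.1⟩
    · simp
    · intro X Y
      simp [mul_add]
    · intro r X
      simp [Prod.smul_def]
    · intro X
      simp only [nu, h]
      linear_combination (t ^ 3 * cj k E c.ρ ^ 2 * X.2.2 ^ 3 - t ^ 3 * X.2.1 ^ 3) * hρ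
    · intro X
      simp only [YY, map_mul, hu', cj_cj c.finE]
      linear_combination (t * cj k E t * X.1 * cj k E X.2.2) * hρ
    · intro X
      simp only [aa, map_mul, hu, hrc]
      ring

theorem PP_eq_CC {κ w δ β : E} {t : k} {X : E × E × E} (hw : w ≠ 0)
    (h1 : (c.ρ + κ) * w ^ 3 = δ) (h2 : cj k E (c.YY X) * w = β) (h3 : t = tr k E (c.nu X)) :
    c.PP δ β t = c.CC κ X := by
  unfold PP CC
  apply Finset.card_bij (fun U _ => w * U)
  · intro U hU
    rw [Finset.mem_filter] at hU ⊢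
    refine ⟨Finset.mem_univ _, ?_⟩
    rw [← hU.2, ← h1, ← h2, h3]
    congr 2
    ring
  · intro U _ V _ h
    exact mul_left_cancel₀ hw h
  · intro V hV
    refine ⟨V / w, ?_, by field_simp⟩
    rw [Finset.mem_filter] at hV ⊢
    refine ⟨Finset.mem_univ _, ?_⟩
    rw [← hV.2, ← h1, ← h2, h3]
    congr 2
    field_simp

/-- The main step: `γ` plays the role of `c`. -/
theorem link_aux (hLS : GoalLS) {γ b δ κ z : E} (hγ : γ ≠ 0) (hb : b ≠ 0)
    (hz : z * cj k E z = 1) (hκ : κ = c.ρ * z ^ 3 ∨ κ = cj k E c.ρ * z ^ 3)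
    -- `V = (b / u) U`, `u^3 = - i (γ^2 + γ̄^2)`
    (hδ : (c.ρ + κ) * b ^ 3 = - algebraMap k E c.i * (γ ^ 2 + cj k E γ ^ 2) * δ)
    (L : Finset (E × E × E)) (h0 : 0 ∈ L) (hadd : ∀ x ∈ L, ∀ y ∈ L, x + y ∈ L)
    (hsmul : ∀ (a : k), ∀ x ∈ L, a • x ∈ L) (hcard : L.card = Fintype.card k ^ 2)
    (hiso : ∀ x ∈ L, aa (k := k) x = 0) :
    ∑ X ∈ L, (c.PP δ (b * cj k E (c.YY X)) (- tr k E (γ * c.mu X)) : ℤ) =
      (Fintype.card k : ℤ) ^ 3 + (Fintype.card k : ℤ) ^ 2 - Fintype.card k := by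
  have hi := c.hiE
  set I := algebraMap k E c.i with hI
  have hIc : cj k E I = I := cj_algebraMap _
  -- the element `a`
  set a := - γ + I * cj k E γ with ha
  obtain ⟨u, hu⟩ := c.cube_bij.2 (- c.i * tr k E (γ ^ 2))
  simp only at hu
  have hu' : algebraMap k E u ^ 3 = - I * (γ ^ 2 + cj k E γ ^ 2) := by
    rw [← map_pow, hu, map_mul, tr_formula c.finE, map_neg, map_pow]
  have hsq := c.sq_add_ne hγ
  have hI0 : I ≠ 0 := by
    intro h
    rw [h] at hi
    have : (1 : E) = 0 := by linear_combination hi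
    exact one_ne_zero this
  have hu0 : algebraMap k E u ≠ 0 := by
    intro h
    rw [h, zero_pow (by norm_num), eq_comm] at hu'
    exact mul_ne_zero (neg_ne_zero.2 hI0) hsq hu'
  have hau : nm k E a = u ^ 3 := by
    apply algebraMap_inj (E := E)
    rw [map_pow, hu', nm_formula c.finE, ha, map_add, map_neg, map_mul, hIc, cj_cj c.finE]
    linear_combination (-(γ * cj k E γ)) * hi * (-1)
  have ha0 : a ≠ 0 := by
    intro h
    rw [h, (nm_eq_zero c.finE).2 rfl, eq_comm] at hau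
    apply hu0
    rw [(pow_eq_zero_iff (n := 3) (by norm_num)).1 hau, map_zero]
  obtain ⟨Θ, hinj, hT0, hTadd, hTsmul, hTnu, hTY, hTaa⟩ := c.exists_theta a u ha0 hau
  have hLS' := hLS k E c z κ hz hκ (L.image Θ)
    (Finset.mem_image.2 ⟨0, h0, hT0⟩)
    (by
      intro x hx y hy
      obtain ⟨x', hx', rfl⟩ := Finset.mem_image.1 hx
      obtain ⟨y', hy', rfl⟩ := Finset.mem_image.1 hy
      exact Finset.mem_image.2 ⟨x' + y', hadd x' hx' y' hy', hTadd x' y'⟩)
    (by
      intro r x hx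
      obtain ⟨x', hx', rfl⟩ := Finset.mem_image.1 hx
      exact Finset.mem_image.2 ⟨r • x', hsmul r x' hx', hTsmul r x'⟩)
    (by rw [Finset.card_image_of_injective _ hinj, hcard])
    (by
      intro x hx
      obtain ⟨x', hx', rfl⟩ := Finset.mem_image.1 hx
      rw [hTaa, hiso x' hx', mul_zero])
  rw [Finset.sum_image (fun x _ y _ h => hinj h)] at hLS'
  rw [← hLS']
  apply Finset.sum_congr rfl
  intro X _
  rw [c.PP_eq_CC (κ := κ) (w := b / algebraMap k E u) (X := Θ X) (div_ne_zero hb hu0)]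
  · rw [div_pow, hu', mul_div_assoc', hδ]
    field_simp
  · rw [hTY, map_mul, cj_algebraMap]
    field_simp
  · apply algebraMap_inj (E := E)
    rw [hTnu, map_neg, tr_formula c.finE, tr_formula c.finE, mu, ← hI]
    simp only [map_mul, map_sub, map_add, map_neg, ha, hIc, cj_cj c.finE]
    ring

end Ctx

theorem link (hLS : GoalLS) : GoalLink := by
  intro k E K _ _ _ _ _ _ _ _ _ _ c α hα L h0 hadd hsmul hcard hiso
  have hi := c.hiE
  have hρ := c.hρ
  set I := algebraMap k E c.i with hI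
  have hIc : cj k E I = I := cj_algebraMap _
  have hI0 : I ≠ 0 := by
    intro h
    rw [h] at hi
    have : (1 : E) = 0 := by linear_combination hi
    exact one_ne_zero this
  have hαc : cj k E α ≠ 0 := fun h => hα (cj_eq_zero.1 h)
  have hρ0 := c.ρ_ne
  have hρc : cj k E c.ρ ≠ 0 := fun h => hρ0 (cj_eq_zero.1 h)
  constructor
  · have h := c.toCtx.link_aux hLS (γ := α ^ 3) (b := I * α ^ 2) (δ := c.ρ)
      (z := (cj k E α / α) ^ 2) (κ := c.ρ * ((cj k E α / α) ^ 2) ^ 3) (pow_ne_zero 3 hα)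
      (mul_ne_zero hI0 (pow_ne_zero 2 hα)) (by
        rw [map_pow, map_div₀, cj_cj c.finE]
        field_simp) (Or.inl rfl) (by
        rw [map_pow, ← hI]
        field_simp
        linear_combination (α ^ 6 + cj k E α ^ 6) * hi) L h0 hadd hsmul hcard hiso
    rw [← h]
  · have h := c.toCtx.link_aux hLS (γ := α ^ 3 * cj k E c.ρ) (b := I * α ^ 2 * cj k E c.ρ) (δ := 1)
      (z := (cj k E α / α) ^ 2 * c.ρ ^ 2) (κ := cj k E c.ρ * ((cj k E α / α) ^ 2 * c.ρ ^ 2) ^ 3)
      (mul_ne_zero (pow_ne_zero 3 hα) hρc)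
      (mul_ne_zero (mul_ne_zero hI0 (pow_ne_zero 2 hα)) hρc) (by
        rw [map_mul, map_pow, map_div₀, cj_cj c.finE, map_pow]
        field_simp
        linear_combination (c.ρ * cj k E c.ρ + 1) * hρ) (Or.inr rfl) (by
        rw [map_mul, map_pow, cj_cj c.finE, ← hI]
        field_simp
        linear_combination (cj k E c.ρ ^ 2 * α ^ 6 * I ^ 2 + c.ρ ^ 2 * cj k E α ^ 6 * I ^ 2 *
          ((c.ρ * cj k E c.ρ) ^ 3 + (c.ρ * cj k E c.ρ) ^ 2 + c.ρ * cj k E c.ρ + 1)) * hρ +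
          (cj k E c.ρ ^ 2 * α ^ 6 + c.ρ ^ 2 * cj k E α ^ 6) * hi) L h0 hadd hsmul hcard hiso
    rw [← h]
    apply Finset.sum_congr rfl
    intro X _
    congr 2
    · ring
    · congr 2
      ring

end Pool.Agent.Helper93.Hemi
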