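import Mathlib
import Pool.Agent.Helper93.Hemi.Goals2
import Pool.Agent.Helper93.Hemi.Link
import Pool.Agent.Helper52.Hemi.Coord2

/-!
# Assembly: the function `f` for `q ≡ 5 (mod 12)`
-/

set_option autoImplicit false
set_option linter.unusedSectionVars false

open Classical

namespace Pool.Agent.Helper93.Hemi

open Pool.Agent.Helper52.Hemi (fr tau Tow hh Ctx2 GoalFun2)

section one

variable {k E : Type} [Field k] [Fintype k] [Field E] [Fintype E] [Algebra k E]

theorem sum_quad (c : Ctx k E) :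
    ∑ α : Eˣ, (quadraticChar k (nm k E (α : E)) : ℤ) = 0 := by
  have h2 : ringChar k ≠ 2 := by
    intro h
    apply c.two_ne
    have := ringChar.spec k 2
    rw [h] at this
    exact_mod_cast this.2 dvd_rfl
  obtain ⟨a, ha⟩ := quadraticChar_exists_neg_one h2
  obtain ⟨b, hb⟩ := FiniteField.norm_surjective (K := k) (K' := E) a
  have hb' : nm k E b = a := hb
  have hb0 : b ≠ 0 := by
    rintro rfl
    rw [(nm_eq_zero c.finE).2 rfl] at hb'
    rw [← hb', quadraticChar_zero] at ha
    norm_num at ha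
  have h3 : ∑ α : Eˣ, (quadraticChar k (nm k E (α : E)) : ℤ) =
      ∑ α : Eˣ, (quadraticChar k (nm k E ((Units.mk0 b hb0 * α : Eˣ) : E)) : ℤ) :=
    (Fintype.sum_equiv (Equiv.mulLeft (Units.mk0 b hb0)) _ _ (fun _ => rfl)).symm
  simp only [Units.val_mul, Units.val_mk0, map_mul, hb', ha] at h3
  rw [← Finset.mul_sum] at h3
  linarith

theorem S_scale (c : Ctx k E) (Y μ : E) (u : k) (hu : u ≠ 0) :
    c.S (algebraMap k E u ^ 2 * Y) (algebraMap k E u ^ 3 * μ) = c.S Y μ := by
  have hu0 : algebraMap k E u ≠ 0 := (map_ne_zero _).2 hu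
  unfold Ctx.S
  refine Eq.trans ?_ (Fintype.sum_equiv (Equiv.mulLeft (Units.mk0 _ hu0))
    (fun α => quadraticChar k (nm k E ((Units.mk0 _ hu0 * α : Eˣ) : E)) *
    ((c.PP c.ρ (algebraMap k E c.i * ((Units.mk0 _ hu0 * α : Eˣ) : E) ^ 2 * cj k E Y)
        (- tr k E (((Units.mk0 _ hu0 * α : Eˣ) : E) ^ 3 * μ)) : ℤ)
      - (c.PP 1 (algebraMap k E c.i * ((Units.mk0 _ hu0 * α : Eˣ) : E) ^ 2 * cj k E Y * cj k E c.ρ)
          (- tr k E (((Units.mk0 _ hu0 * α : Eˣ) : E) ^ 3 * μ * cj k E c.ρ)) : ℤ))) _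
    (fun _ => rfl))
  apply Finset.sum_congr rfl
  intro α _
  have h1 : quadraticChar k (nm k E (α : E)) =
      quadraticChar k (nm k E ((Units.mk0 _ hu0 * α : Eˣ) : E)) := by
    rw [Units.val_mul, Units.val_mk0, nm_algebraMap_mul c.finE, map_mul,
      quadraticChar_sq_one' hu, one_mul]
  rw [h1]
  congr 1
  simp only [Units.val_mul, Units.val_mk0, map_mul, map_pow, cj_algebraMap]
  congr 3
  · ring
  · congr 2
    ring
  · ring
  · congr 2
    ring

theorem haaE (h : Module.finrank k E = 2) (X : E × E × E) : algebraMap k E (aa (k := k) X) =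
    X.1 * cj k E X.1 + X.2.1 * cj k E X.2.1 + X.2.2 * cj k E X.2.2 := by
  rw [aa, map_add, map_add, nm_formula h, nm_formula h, nm_formula h]

end one

section two

variable {k E K : Type} [Field k] [Fintype k] [Field E] [Fintype E] [Field K] [Fintype K]
    [Algebra k E] [Algebra E K] [Algebra k K] [IsScalarTower k E K]

/-- The context from `Ctx2`. -/
noncomputable def mkCtxK (c : Ctx2 k E K) (hq4 : Fintype.card k % 4 = 1) : CtxK k E K where
  finE := c.tow.finF
  hq3 := c.hq3
  hq4 := hq4
  i := Classical.choose ((FiniteField.isSquare_neg_one_iff (F := k)).2 (by omega))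
  hi := by
    have h := Classical.choose_spec ((FiniteField.isSquare_neg_one_iff (F := k)).2 (by omega))
    rw [sq]
    exact h.symm
  ω := c.w
  hω := c.hw
  ρ := c.rho
  hρ := c.rho_cj
  hρ3 := c.rho_not_cube
  tw := c.tow
  g := c.g
  hg3 := c.hrho.symm
  hg := c.hgt
  hgω := c.hgf

theorem goalFun2_final (hE : GoalEval) (hL : GoalLink) : GoalFun2 := by
  intro k E K _ _ _ _ _ _ _ _ _ _ tw hq4 hq3
  obtain ⟨c2⟩ := tw.exists_ctx2 hq3
  set c := mkCtxK c2 hq4 with hc
  have hρ : c.ρ = c2.rho := rfl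
  have hcj : ∀ x : E, cj k E x = Pool.Agent.Helper52.Hemi.cj k E x := fun x => rfl
  have hcρ : cj k E c.ρ = c2.rho⁻¹ := c2.cj_rho
  -- the coordinates
  have hbij : Function.Bijective (fun p : E × E × E => c2.vec p.1 p.2.1 p.2.2) := by
    constructor
    · rintro ⟨a, b, d⟩ ⟨a', b', d'⟩ h
      obtain ⟨h1, h2, h3⟩ := c2.vec_injective h
      simp only at h1 h2 h3
      rw [h1, h2, h3]
    · intro x
      obtain ⟨a, b, d, h⟩ := c2.vec_surjective x
      exact ⟨(a, b, d), h.symm⟩
  set e := Equiv.ofBijective _ hbij with he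
  have he' : ∀ p : E × E × E, e p = c2.vec p.1 p.2.1 p.2.2 := fun p => rfl
  have hes : ∀ x : K, c2.vec (e.symm x).1 (e.symm x).2.1 (e.symm x).2.2 = x := fun x => by
    rw [← he', e.apply_symm_apply]
  have hadd : ∀ x y, e.symm (x + y) = e.symm x + e.symm y := by
    intro x y
    apply e.injective
    rw [e.apply_symm_apply, he']
    conv_lhs => rw [← hes x, ← hes y]
    simp only [Ctx2.vec, Prod.fst_add, Prod.snd_add, map_add]
    ring
  have hsmul : ∀ (u : k) x, e.symm (algebraMap k K u * x) = u • e.symm x := by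
    intro u x
    apply e.injective
    rw [e.apply_symm_apply, he']
    conv_lhs => rw [← hes x]
    have r1 : (u • e.symm x).1 = algebraMap k E u * (e.symm x).1 := Algebra.smul_def _ _
    have r2 : (u • e.symm x).2.1 = algebraMap k E u * (e.symm x).2.1 := Algebra.smul_def _ _
    have r3 : (u • e.symm x).2.2 = algebraMap k E u * (e.symm x).2.2 := Algebra.smul_def _ _
    rw [r1, r2, r3, IsScalarTower.algebraMap_apply k E K, Ctx2.vec, Ctx2.vec]
    simp only [map_mul]
    ring
  have h0 : e.symm 0 = 0 := by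
    have := hadd 0 0
    rw [add_zero] at this
    exact left_eq_add.1 this
  -- norm and `x τ x`
  have hnu : ∀ x : K, c.nu (e.symm x) = Algebra.norm E x := by
    intro x
    conv_rhs => rw [← hes x]
    rw [c2.norm_vec, Ctx.nu, hcρ, hρ]
  have hYY : ∀ x : K, x * tau k K x = c2.vec (algebraMap k E (aa (k := k) (e.symm x)))
      (c.YY (e.symm x)) (cj k E (c.YY (e.symm x))) := by
    intro x
    conv_lhs => rw [← hes x]
    rw [c2.mul_tau_vec, haaE c.finE, Ctx.YY, hcρ]
    rfl
  have hYYs : ∀ x y : K, x * tau k K x = y * tau k K y →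
      c.YY (e.symm x) = c.YY (e.symm y) := by
    intro x y h
    rw [hYY, hYY] at h
    exact (c2.vec_injective h).2.1
  have hhh : ∀ x : K, hh k E K x x = 3 * algebraMap k E (aa (k := k) (e.symm x)) := by
    intro x
    conv_lhs => rw [← hes x]
    rw [c2.hh_vec, haaE c.finE]
    rfl
  have haa : ∀ x : K, hh k E K x x = 0 → aa (k := k) (e.symm x) = 0 := by
    intro x hx
    rw [hhh] at hx
    have h3 := (mul_eq_zero.1 hx).resolve_left c.three_ne_E
    exact algebraMap_inj (E := E) (by rw [h3, map_zero])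
  have hY0 : ∀ x : K, x ≠ 0 → hh k E K x x = 0 → c.YY (e.symm x) ≠ 0 := by
    intro x hx hxx hY
    have h := hYY x
    rw [haa x hxx, hY, map_zero, map_zero, Ctx2.vec] at h
    simp only [map_zero, zero_mul, add_zero] at h
    rcases mul_eq_zero.1 h with h1 | h1
    · exact hx h1
    · exact hx ((map_eq_zero _).1 h1)
  have hrel : ∀ x : K, hh k E K x x = 0 →
      4 * tr k E (c.ρ * c.YY (e.symm x) ^ 3) = c.i * tr k E (c.mu (e.symm x) ^ 2) := by
    intro x hxx
    have h1 : Algebra.norm E (x * tau k K x) = Algebra.norm E x * Algebra.norm E (tau k K x) :=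
      map_mul _ _ _
    have h2 : Algebra.norm E (tau k K x) = cj k E (Algebra.norm E x) := by
      rw [← hes x, c2.tau_vec, c2.norm_vec, c2.norm_vec, hcj]
      simp only [map_add, map_sub, map_mul, map_pow, map_inv₀, c2.cj_rho, inv_inv, map_ofNat]
      ring
    rw [h2, hYY x, haa x hxx, c2.norm_vec, map_zero, ← hnu] at h1
    apply algebraMap_inj (E := E)
    have hi := c.hiE
    simp only [map_mul, map_ofNat, tr_formula c.finE, Ctx.mu, map_pow, map_sub, cj_algebraMap,
      cj_cj c.finE]
    rw [hcρ, hρ]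
    linear_combination 4 * h1 + (4 * (c.nu (e.symm x) * cj k E (c.nu (e.symm x))) -
      algebraMap k E c.i * (c.nu (e.symm x) ^ 2 + cj k E (c.nu (e.symm x)) ^ 2)) * hi
  -- the function
  set q : ℤ := (Fintype.card k : ℤ) with hq
  have hq1 : 1 < q := by
    rw [hq]
    exact_mod_cast (Fintype.one_lt_card : 1 < Fintype.card k)
  set T : ℤ := 3 * q * (q - 1) with hT
  have hT0 : T ≠ 0 := by
    rw [hT]
    have : 0 < 3 * q * (q - 1) := by
      apply mul_pos <;> linarith
    exact this.ne'
  set Sx : K → ℤ := fun x => c.S (c.YY (e.symm x)) (c.mu (e.symm x)) with hSx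
  have hS : ∀ x : K, x ≠ 0 → hh k E K x x = 0 → Sx x = T ∨ Sx x = -T := by
    intro x hx hxx
    exact hE k E K c _ _ (hY0 x hx hxx) (hrel x hxx)
  refine ⟨fun x => Sx x / T, ?_, ?_, ?_, ?_⟩
  · intro x hx hxx
    rcases hS x hx hxx with h | h
    · left
      simp only [h]
      exact Int.ediv_self hT0
    · right
      simp only [h]
      rw [Int.neg_ediv_of_dvd dvd_rfl, Int.ediv_self hT0]
  · intro u x hu hx hxx
    simp only
    congr 1
    simp only [hSx, hsmul]
    have r1 : (u • e.symm x).1 = algebraMap k E u * (e.symm x).1 := Algebra.smul_def _ _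
    have r2 : (u • e.symm x).2.1 = algebraMap k E u * (e.symm x).2.1 := Algebra.smul_def _ _
    have r3 : (u • e.symm x).2.2 = algebraMap k E u * (e.symm x).2.2 := Algebra.smul_def _ _
    have e1 : c.YY (u • e.symm x) = algebraMap k E u ^ 2 * c.YY (e.symm x) := by
      rw [Ctx.YY, Ctx.YY, r1, r2, r3]
      simp only [map_mul, cj_algebraMap]
      ring
    have e2 : c.mu (u • e.symm x) = algebraMap k E u ^ 3 * c.mu (e.symm x) := by
      rw [Ctx.mu, Ctx.mu, Ctx.nu, Ctx.nu, r1, r2, r3]
      simp only [map_mul, map_add, map_sub, map_pow, map_ofNat, cj_algebraMap]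
      ring
    rw [e1, e2, S_scale _ _ _ _ hu]
  · intro s hs x hx hxx
    simp only
    congr 1
    simp only [hSx]
    have e1 : c.YY (e.symm (s * x)) = c.YY (e.symm x) := by
      apply hYYs
      rw [map_mul]
      have := tw.CC_tau hs
      linear_combination (x * tau k K x) * this
    have e2 : c.nu (e.symm (s * x)) = c.nu (e.symm x) := by
      rw [hnu, hnu, map_mul, tw.CC_norm hs, one_mul]
    rw [e1, Ctx.mu, Ctx.mu, e2]
  · intro L hL0 hLadd hLsmul hLcard hLiso
    set L' := L.image e.symm with hL'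
    have hL'0 : (0 : E × E × E) ∈ L' := Finset.mem_image.2 ⟨0, hL0, h0⟩
    have hfun : ∀ x ∈ L.erase 0, T * (Sx x / T) = Sx x := by
      intro x hx
      obtain ⟨hx0, hxL⟩ := Finset.mem_erase.1 hx
      apply Int.mul_ediv_cancel'
      rcases hS x hx0 (hLiso x hxL) with h | h
      · rw [h]
      · rw [h]
        exact (dvd_neg).2 dvd_rfl
    apply (mul_eq_zero.1 (show T * ∑ x ∈ L.erase 0, Sx x / T = 0 from ?_)).resolve_left hT0
    rw [Finset.mul_sum, Finset.sum_congr rfl hfun]
    -- sum over the coordinates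
    have h1 : ∑ x ∈ L.erase 0, Sx x =
        ∑ X ∈ L'.erase 0, c.S (c.YY X) (c.mu X) := by
      have : L'.erase 0 = (L.erase 0).image e.symm := by
        ext X
        simp only [Finset.mem_erase, Finset.mem_image, hL', ne_eq]
        constructor
        · rintro ⟨hX, x, hx, rfl⟩
          refine ⟨x, ⟨?_, hx⟩, rfl⟩
          rintro rfl
          exact hX h0
        · rintro ⟨x, ⟨hx0, hx⟩, rfl⟩
          refine ⟨?_, x, hx, rfl⟩
          intro h
          apply hx0
          apply e.symm.injective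
          rw [h, h0]
      rw [this, Finset.sum_image (fun x _ y _ h => e.symm.injective h)]
    rw [h1]
    unfold Ctx.S
    rw [Finset.sum_comm]
    have h2 : ∀ α : Eˣ, ∑ X ∈ L'.erase 0, quadraticChar k (nm k E α) *
        ((c.PP c.ρ (algebraMap k E c.i * (α : E) ^ 2 * cj k E (c.YY X))
            (- tr k E ((α : E) ^ 3 * c.mu X)) : ℤ)
          - (c.PP 1 (algebraMap k E c.i * (α : E) ^ 2 * cj k E (c.YY X) * cj k E c.ρ)
              (- tr k E ((α : E) ^ 3 * c.mu X * cj k E c.ρ)) : ℤ)) =
        quadraticChar k (nm k E α) * ((c.PP 1 0 0 : ℤ) - c.PP c.ρ 0 0) := by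
      intro α
      rw [← Finset.mul_sum]
      congr 1
      obtain ⟨l1, l2⟩ := hL k E K c (α : E) α.ne_zero L' hL'0
        (by
          intro x hx y hy
          obtain ⟨x', hx', rfl⟩ := Finset.mem_image.1 hx
          obtain ⟨y', hy', rfl⟩ := Finset.mem_image.1 hy
          exact Finset.mem_image.2 ⟨x' + y', hLadd x' hx' y' hy', hadd x' y'⟩)
        (by
          intro r x hx
          obtain ⟨x', hx', rfl⟩ := Finset.mem_image.1 hx
          exact Finset.mem_image.2 ⟨algebraMap k K r * x', hLsmul r x' hx', hsmul r x'⟩)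
        (by rw [Finset.card_image_of_injective _ e.symm.injective, hLcard])
        (by
          intro x hx
          obtain ⟨x', hx', rfl⟩ := Finset.mem_image.1 hx
          exact haa x' (hLiso x' hx'))
      rw [← Finset.add_sum_erase _ _ hL'0] at l1 l2
      have z1 : c.YY (0 : E × E × E) = 0 := by simp [Ctx.YY]
      have z2 : c.mu (0 : E × E × E) = 0 := by simp [Ctx.mu, Ctx.nu]
      simp only [z1, z2, map_zero, mul_zero, neg_zero, zero_mul] at l1 l2
      rw [Finset.sum_sub_distrib]
      linarith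
    rw [Finset.sum_congr rfl (fun α _ => h2 α), ← Finset.sum_mul, sum_quad c.toCtx, zero_mul]

end two

end Pool.Agent.Helper93.Hemi
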